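import Mathlib

/-!
# The test function `F_A` (part inside the circle), calculus

`rho = e^l / 4`, `C = cosh g`, `S = sinh g`, `R = sqrt ((rho - p C)^2 + p (1-p) S^2)`,
`cosh F_A = (rho + R)/p`.
-/

namespace Pool.EH

open Real

/-- `rho = e^l/4` -/
noncomputable def rh (l : ℝ) : ℝ := Real.exp l / 4

/-- `R` -/
noncomputable def RR (p l g : ℝ) : ℝ :=
  Real.sqrt ((rh l - p * Real.cosh g) ^ 2 + p * (1 - p) * (Real.sinh g) ^ 2)

/-- `F_A` -/
noncomputable def FA (p l g : ℝ) : ℝ := Real.arcosh ((rh l + RR p l g) / p)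

/-- `F_B` -/
noncomputable def FB (p l g : ℝ) : ℝ :=
  Real.arcosh ((RR p l g + Real.cosh g - rh l) / (1 - p))

lemma rh_pos (l : ℝ) : 0 < rh l := by unfold rh; positivity

lemma hasDerivAt_rh (l : ℝ) : HasDerivAt rh (rh l) l := by
  unfold rh
  simpa using (Real.hasDerivAt_exp l).div_const 4

lemma RR_arg_pos {p : ℝ} (hp : 0 < p) (hp1 : p < 1) (l : ℝ) {g : ℝ} (hg : 0 < g) :
    0 < (rh l - p * Real.cosh g) ^ 2 + p * (1 - p) * (Real.sinh g) ^ 2 := by
  have h1 : 0 < Real.sinh g := Real.sinh_pos_iff.2 hg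
  have h2 : 0 < 1 - p := by linarith
  positivity

lemma RR_pos {p : ℝ} (hp : 0 < p) (hp1 : p < 1) (l : ℝ) {g : ℝ} (hg : 0 < g) :
    0 < RR p l g := Real.sqrt_pos.2 (RR_arg_pos hp hp1 l hg)

lemma RR_sq {p : ℝ} (hp : 0 < p) (hp1 : p < 1) (l g : ℝ) :
    RR p l g ^ 2 = (rh l - p * Real.cosh g) ^ 2 + p * (1 - p) * (Real.sinh g) ^ 2 := by
  unfold RR
  rw [Real.sq_sqrt]
  have h2 : 0 < 1 - p := by linarith
  positivity

lemma RR_sq' {p : ℝ} (hp : 0 < p) (hp1 : p < 1) (l g : ℝ) :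
    RR p l g ^ 2 = rh l ^ 2 - 2 * p * rh l * Real.cosh g + p * Real.cosh g ^ 2
      - p * (1 - p) := by
  rw [RR_sq hp hp1, Real.sinh_sq]; ring

lemma one_lt_A {p : ℝ} (hp : 0 < p) (hp1 : p < 1) (l : ℝ) {g : ℝ} (hg : 0 < g) :
    1 < (rh l + RR p l g) / p := by
  rw [lt_div_iff₀ hp, one_mul]
  have hR := RR_pos hp hp1 l hg
  have hC : 1 < Real.cosh g := Real.one_lt_cosh.2 hg.ne'
  by_cases h : p ≤ rh l
  · linarith
  · push Not at h
    have h3 : (p - rh l) ^ 2 < RR p l g ^ 2 := by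
      rw [RR_sq' hp hp1]
      have : 0 < p * (Real.cosh g - 1) * (Real.cosh g + 1 - 2 * rh l) := by
        have : 0 < Real.cosh g + 1 - 2 * rh l := by linarith
        have h5 : 0 < Real.cosh g - 1 := by linarith
        positivity
      nlinarith
    have h4 : p - rh l < RR p l g := by
      apply lt_of_pow_lt_pow_left₀ 2 hR.le h3
    linarith

lemma one_lt_B {p : ℝ} (hp : 0 < p) (hp1 : p < 1) (l : ℝ) {g : ℝ} (hg : 0 < g) :
    1 < (RR p l g + Real.cosh g - rh l) / (1 - p) := by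
  have hq : 0 < 1 - p := by linarith
  rw [lt_div_iff₀ hq, one_mul]
  have hR := RR_pos hp hp1 l hg
  have hC : 1 < Real.cosh g := Real.one_lt_cosh.2 hg.ne'
  have hr := rh_pos l
  by_cases h : 1 - p ≤ Real.cosh g - rh l
  · linarith
  · push Not at h
    have h3 : (1 - p - Real.cosh g + rh l) ^ 2 < RR p l g ^ 2 := by
      rw [RR_sq' hp hp1]
      have : 0 < (1 - p) * (Real.cosh g - 1) * (2 * rh l + 1 - Real.cosh g) := by
        have : 0 < 2 * rh l + 1 - Real.cosh g := by linarith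
        have h5 : 0 < Real.cosh g - 1 := by linarith
        positivity
      nlinarith
    have h4 : 1 - p - Real.cosh g + rh l < RR p l g := by
      apply lt_of_pow_lt_pow_left₀ 2 hR.le h3
    linarith

lemma cosh_FA {p : ℝ} (hp : 0 < p) (hp1 : p < 1) (l : ℝ) {g : ℝ} (hg : 0 < g) :
    Real.cosh (FA p l g) = (rh l + RR p l g) / p :=
  Real.cosh_arcosh (one_lt_A hp hp1 l hg).le

lemma cosh_FB {p : ℝ} (hp : 0 < p) (hp1 : p < 1) (l : ℝ) {g : ℝ} (hg : 0 < g) :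
    Real.cosh (FB p l g) = (RR p l g + Real.cosh g - rh l) / (1 - p) :=
  Real.cosh_arcosh (one_lt_B hp hp1 l hg).le

lemma FA_pos {p : ℝ} (hp : 0 < p) (hp1 : p < 1) (l : ℝ) {g : ℝ} (hg : 0 < g) :
    0 < FA p l g := Real.arcosh_pos (one_lt_A hp hp1 l hg)

lemma FB_pos {p : ℝ} (hp : 0 < p) (hp1 : p < 1) (l : ℝ) {g : ℝ} (hg : 0 < g) :
    0 < FB p l g := Real.arcosh_pos (one_lt_B hp hp1 l hg)

lemma RR_eq_A {p : ℝ} (hp : 0 < p) (hp1 : p < 1) (l : ℝ) {g : ℝ} (hg : 0 < g) :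
    RR p l g = p * Real.cosh (FA p l g) - rh l := by
  rw [cosh_FA hp hp1 l hg]; field_simp; ring

lemma RR_eq_B {p : ℝ} (hp : 0 < p) (hp1 : p < 1) (l : ℝ) {g : ℝ} (hg : 0 < g) :
    RR p l g = (1 - p) * Real.cosh (FB p l g) - (Real.cosh g - rh l) := by
  have hq : (1 - p) ≠ 0 := by linarith
  rw [cosh_FB hp hp1 l hg]; field_simp; ring

/-- the implicit relation for `F_A` -/
lemma rel_A {p : ℝ} (hp : 0 < p) (hp1 : p < 1) (l : ℝ) {g : ℝ} (hg : 0 < g) :
    p * Real.sinh (FA p l g) ^ 2 - Real.sinh g ^ 2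
      = 2 * rh l * (Real.cosh (FA p l g) - Real.cosh g) := by
  have h1 := RR_sq' hp hp1 l g
  rw [RR_eq_A hp hp1 l hg] at h1
  have h2 := Real.cosh_sq (FA p l g)
  have h3 := Real.cosh_sq g
  have h4 : p * (p * Real.sinh (FA p l g) ^ 2 - Real.sinh g ^ 2)
      = p * (2 * rh l * (Real.cosh (FA p l g) - Real.cosh g)) := by
    linear_combination h1 - p ^ 2 * h2 + p * h3
  exact mul_left_cancel₀ hp.ne' h4

/-- the implicit relation for `F_B` -/
lemma rel_B {p : ℝ} (hp : 0 < p) (hp1 : p < 1) (l : ℝ) {g : ℝ} (hg : 0 < g) :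
    (1 - p) * Real.sinh (FB p l g) ^ 2 - Real.sinh g ^ 2
      = 2 * (Real.cosh g - rh l) * (Real.cosh (FB p l g) - Real.cosh g) := by
  have h1 := RR_sq' hp hp1 l g
  rw [RR_eq_B hp hp1 l hg] at h1
  have h2 := Real.cosh_sq (FB p l g)
  have h3 := Real.cosh_sq g
  have hq : (1 - p) ≠ 0 := by linarith
  have h4 : (1 - p) * ((1 - p) * Real.sinh (FB p l g) ^ 2 - Real.sinh g ^ 2)
      = (1 - p) * (2 * (Real.cosh g - rh l) * (Real.cosh (FB p l g) - Real.cosh g)) := by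
    linear_combination h1 - (1 - p) ^ 2 * h2 + (1 - p) * h3
  exact mul_left_cancel₀ hq h4

/-! ### derivatives of `R` -/

lemma hasDerivAt_RR_g {p : ℝ} (hp : 0 < p) (hp1 : p < 1) (l : ℝ) {g : ℝ} (hg : 0 < g) :
    HasDerivAt (fun t => RR p l t) (p * Real.sinh g * (Real.cosh g - rh l) / RR p l g) g := by
  have h0 := RR_arg_pos hp hp1 l hg
  have h1 : HasDerivAt (fun t => (rh l - p * Real.cosh t) ^ 2 + p * (1 - p) * (Real.sinh t) ^ 2)
      (2 * (rh l - p * Real.cosh g) * (-(p * Real.sinh g))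
        + p * (1 - p) * (2 * Real.sinh g * Real.cosh g)) g := by
    have ha : HasDerivAt (fun t => rh l - p * Real.cosh t) (-(p * Real.sinh g)) g := by
      simpa using ((Real.hasDerivAt_cosh g).const_mul p).const_sub (rh l)
    have hb := (Real.hasDerivAt_sinh g).pow 2
    have hc := (ha.pow 2).add (hb.const_mul (p * (1 - p)))
    refine hc.congr_deriv ?_
    simp
    try ring
  have h2 := h1.sqrt h0.ne'
  have hR := RR_pos hp hp1 l hg
  unfold RR
  refine h2.congr_deriv ?_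
  have : Real.sqrt ((rh l - p * Real.cosh g) ^ 2 + p * (1 - p) * (Real.sinh g) ^ 2) ≠ 0 := hR.ne'
  field_simp
  ring

lemma hasDerivAt_RR_l {p : ℝ} (hp : 0 < p) (hp1 : p < 1) (l : ℝ) {g : ℝ} (hg : 0 < g) :
    HasDerivAt (fun s => RR p s g) (rh l * (rh l - p * Real.cosh g) / RR p l g) l := by
  have h0 := RR_arg_pos hp hp1 l hg
  have h1 : HasDerivAt (fun s => (rh s - p * Real.cosh g) ^ 2 + p * (1 - p) * (Real.sinh g) ^ 2)
      (2 * (rh l - p * Real.cosh g) * rh l) l := by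
    have ha : HasDerivAt (fun s => rh s - p * Real.cosh g) (rh l) l :=
      (hasDerivAt_rh l).sub_const _
    have hc := (ha.pow 2).add_const (p * (1 - p) * (Real.sinh g) ^ 2)
    refine hc.congr_deriv ?_
    simp
    try ring
  have h2 := h1.sqrt h0.ne'
  have hR := RR_pos hp hp1 l hg
  unfold RR
  refine h2.congr_deriv ?_
  have : Real.sqrt ((rh l - p * Real.cosh g) ^ 2 + p * (1 - p) * (Real.sinh g) ^ 2) ≠ 0 := hR.ne'
  field_simp

/-! ### first derivatives of `F_A`, `F_B` -/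

/-- `∂_g F_A` -/
noncomputable def FAg (p l g : ℝ) : ℝ :=
  Real.sinh g * (Real.cosh g - rh l) / (RR p l g * Real.sinh (FA p l g))
/-- `∂_l F_A` -/
noncomputable def FAl (p l g : ℝ) : ℝ :=
  rh l * (Real.cosh (FA p l g) - Real.cosh g) / (RR p l g * Real.sinh (FA p l g))
/-- `∂_g F_B` -/
noncomputable def FBg (p l g : ℝ) : ℝ :=
  Real.sinh g * (Real.cosh (FB p l g) - Real.cosh g + rh l) / (RR p l g * Real.sinh (FB p l g))
/-- `∂_l F_B` -/
noncomputable def FBl (p l g : ℝ) : ℝ :=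
  - (rh l * (Real.cosh (FB p l g) - Real.cosh g)) / (RR p l g * Real.sinh (FB p l g))

lemma sinh_FA_pos {p : ℝ} (hp : 0 < p) (hp1 : p < 1) (l : ℝ) {g : ℝ} (hg : 0 < g) :
    0 < Real.sinh (FA p l g) := Real.sinh_pos_iff.2 (FA_pos hp hp1 l hg)
lemma sinh_FB_pos {p : ℝ} (hp : 0 < p) (hp1 : p < 1) (l : ℝ) {g : ℝ} (hg : 0 < g) :
    0 < Real.sinh (FB p l g) := Real.sinh_pos_iff.2 (FB_pos hp hp1 l hg)

lemma sinh_FA_eq {p : ℝ} (hp : 0 < p) (hp1 : p < 1) (l : ℝ) {g : ℝ} (hg : 0 < g) :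
    Real.sqrt (((rh l + RR p l g) / p) ^ 2 - 1) = Real.sinh (FA p l g) :=
  (Real.sinh_arcosh (one_lt_A hp hp1 l hg).le).symm

lemma sinh_FB_eq {p : ℝ} (hp : 0 < p) (hp1 : p < 1) (l : ℝ) {g : ℝ} (hg : 0 < g) :
    Real.sqrt (((RR p l g + Real.cosh g - rh l) / (1 - p)) ^ 2 - 1) = Real.sinh (FB p l g) :=
  (Real.sinh_arcosh (one_lt_B hp hp1 l hg).le).symm

theorem hasDerivAt_FA_g {p : ℝ} (hp : 0 < p) (hp1 : p < 1) (l : ℝ) {g : ℝ} (hg : 0 < g) :
    HasDerivAt (fun t => FA p l t) (FAg p l g) g := by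
  have h1 := hasDerivAt_RR_g hp hp1 l hg
  have h2 : HasDerivAt (fun t => (rh l + RR p l t) / p)
      ((p * Real.sinh g * (Real.cosh g - rh l) / RR p l g) / p) g :=
    (h1.const_add (rh l)).div_const p
  have h3 := (Real.hasDerivAt_arcosh (x := (rh l + RR p l g) / p) (one_lt_A hp hp1 l hg)).comp g h2
  rw [sinh_FA_eq hp hp1 l hg] at h3
  refine HasDerivAt.congr_deriv (f := fun t => FA p l t) h3 ?_
  have hs := (sinh_FA_pos hp hp1 l hg).ne'
  have hR := (RR_pos hp hp1 l hg).ne'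
  unfold FAg
  field_simp

theorem hasDerivAt_FA_l {p : ℝ} (hp : 0 < p) (hp1 : p < 1) (l : ℝ) {g : ℝ} (hg : 0 < g) :
    HasDerivAt (fun s => FA p s g) (FAl p l g) l := by
  have h1 := hasDerivAt_RR_l hp hp1 l hg
  have h2 : HasDerivAt (fun s => (rh s + RR p s g) / p)
      ((rh l + rh l * (rh l - p * Real.cosh g) / RR p l g) / p) l :=
    ((hasDerivAt_rh l).add h1).div_const p
  have h3 := (Real.hasDerivAt_arcosh (x := (rh l + RR p l g) / p) (one_lt_A hp hp1 l hg)).comp l h2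
  rw [sinh_FA_eq hp hp1 l hg] at h3
  refine HasDerivAt.congr_deriv (f := fun s => FA p s g) h3 ?_
  have hs := (sinh_FA_pos hp hp1 l hg).ne'
  have hR := (RR_pos hp hp1 l hg).ne'
  unfold FAl
  rw [cosh_FA hp hp1 l hg]
  field_simp
  ring

theorem hasDerivAt_FB_g {p : ℝ} (hp : 0 < p) (hp1 : p < 1) (l : ℝ) {g : ℝ} (hg : 0 < g) :
    HasDerivAt (fun t => FB p l t) (FBg p l g) g := by
  have hq : (1 - p) ≠ 0 := by linarith
  have h1 := hasDerivAt_RR_g hp hp1 l hg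
  have h2 : HasDerivAt (fun t => (RR p l t + Real.cosh t - rh l) / (1 - p))
      ((p * Real.sinh g * (Real.cosh g - rh l) / RR p l g + Real.sinh g) / (1 - p)) g :=
    ((h1.add (Real.hasDerivAt_cosh g)).sub_const (rh l)).div_const (1 - p)
  have h3 := (Real.hasDerivAt_arcosh (x := (RR p l g + Real.cosh g - rh l) / (1 - p))
    (one_lt_B hp hp1 l hg)).comp g h2
  rw [sinh_FB_eq hp hp1 l hg] at h3
  refine HasDerivAt.congr_deriv (f := fun t => FB p l t) h3 ?_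
  have hs := (sinh_FB_pos hp hp1 l hg).ne'
  have hR := (RR_pos hp hp1 l hg).ne'
  unfold FBg
  rw [cosh_FB hp hp1 l hg]
  field_simp
  ring

theorem hasDerivAt_FB_l {p : ℝ} (hp : 0 < p) (hp1 : p < 1) (l : ℝ) {g : ℝ} (hg : 0 < g) :
    HasDerivAt (fun s => FB p s g) (FBl p l g) l := by
  have hq : (1 - p) ≠ 0 := by linarith
  have h1 := hasDerivAt_RR_l hp hp1 l hg
  have h2 : HasDerivAt (fun s => (RR p s g + Real.cosh g - rh s) / (1 - p))
      ((rh l * (rh l - p * Real.cosh g) / RR p l g - rh l) / (1 - p)) l :=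
    ((h1.add_const (Real.cosh g)).sub (hasDerivAt_rh l)).div_const (1 - p)
  have h3 := (Real.hasDerivAt_arcosh (x := (RR p l g + Real.cosh g - rh l) / (1 - p))
    (one_lt_B hp hp1 l hg)).comp l h2
  rw [sinh_FB_eq hp hp1 l hg] at h3
  refine HasDerivAt.congr_deriv (f := fun s => FB p s g) h3 ?_
  have hs := (sinh_FB_pos hp hp1 l hg).ne'
  have hR := (RR_pos hp hp1 l hg).ne'
  unfold FBl
  rw [cosh_FB hp hp1 l hg]
  field_simp
  ring

end Pool.EH
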