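import Pool.Agent.H10.EH.FA

namespace Pool.EH
open Real

/-! ### second derivatives -/

/-- `D = R sinh F_A` -/
noncomputable def DA (p l g : ℝ) : ℝ := RR p l g * Real.sinh (FA p l g)
/-- `E_A = p sinh^2 F + R cosh F` -/
noncomputable def EA (p l g : ℝ) : ℝ :=
  p * Real.sinh (FA p l g) ^ 2 + RR p l g * Real.cosh (FA p l g)
/-- `D = R sinh F_B` -/
noncomputable def DB (p l g : ℝ) : ℝ := RR p l g * Real.sinh (FB p l g)
/-- `E_B` -/
noncomputable def EB (p l g : ℝ) : ℝ :=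
  (1 - p) * Real.sinh (FB p l g) ^ 2 + RR p l g * Real.cosh (FB p l g)

lemma DA_pos {p : ℝ} (hp : 0 < p) (hp1 : p < 1) (l : ℝ) {g : ℝ} (hg : 0 < g) :
    0 < DA p l g := mul_pos (RR_pos hp hp1 l hg) (sinh_FA_pos hp hp1 l hg)
lemma DB_pos {p : ℝ} (hp : 0 < p) (hp1 : p < 1) (l : ℝ) {g : ℝ} (hg : 0 < g) :
    0 < DB p l g := mul_pos (RR_pos hp hp1 l hg) (sinh_FB_pos hp hp1 l hg)

lemma hasDerivAt_DA_g {p : ℝ} (hp : 0 < p) (hp1 : p < 1) (l : ℝ) {g : ℝ} (hg : 0 < g) :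
    HasDerivAt (fun t => DA p l t) (EA p l g * FAg p l g) g := by
  have h := (hasDerivAt_RR_g hp hp1 l hg).mul ((hasDerivAt_FA_g hp hp1 l hg).sinh)
  refine HasDerivAt.congr_deriv (f := fun t => DA p l t) h ?_
  have hs := (sinh_FA_pos hp hp1 l hg).ne'
  have hR := (RR_pos hp hp1 l hg).ne'
  unfold EA FAg
  field_simp
  

lemma hasDerivAt_DA_l {p : ℝ} (hp : 0 < p) (hp1 : p < 1) (l : ℝ) {g : ℝ} (hg : 0 < g) :
    HasDerivAt (fun s => DA p s g) (EA p l g * FAl p l g - rh l * Real.sinh (FA p l g)) l := by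
  have h := (hasDerivAt_RR_l hp hp1 l hg).mul ((hasDerivAt_FA_l hp hp1 l hg).sinh)
  refine HasDerivAt.congr_deriv (f := fun s => DA p s g) h ?_
  have hs := (sinh_FA_pos hp hp1 l hg).ne'
  have hR := (RR_pos hp hp1 l hg).ne'
  have hq := RR_eq_A hp hp1 l hg
  unfold EA FAl
  field_simp
  rw [hq]
  ring

lemma hasDerivAt_DB_g {p : ℝ} (hp : 0 < p) (hp1 : p < 1) (l : ℝ) {g : ℝ} (hg : 0 < g) :
    HasDerivAt (fun t => DB p l t) (EB p l g * FBg p l g - Real.sinh g * Real.sinh (FB p l g)) g := by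
  have h := (hasDerivAt_RR_g hp hp1 l hg).mul ((hasDerivAt_FB_g hp hp1 l hg).sinh)
  refine HasDerivAt.congr_deriv (f := fun t => DB p l t) h ?_
  have hs := (sinh_FB_pos hp hp1 l hg).ne'
  have hR := (RR_pos hp hp1 l hg).ne'
  have hq := RR_eq_B hp hp1 l hg
  unfold EB FBg
  field_simp
  rw [hq]
  ring

lemma hasDerivAt_DB_l {p : ℝ} (hp : 0 < p) (hp1 : p < 1) (l : ℝ) {g : ℝ} (hg : 0 < g) :
    HasDerivAt (fun s => DB p s g) (EB p l g * FBl p l g + rh l * Real.sinh (FB p l g)) l := by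
  have h := (hasDerivAt_RR_l hp hp1 l hg).mul ((hasDerivAt_FB_l hp hp1 l hg).sinh)
  refine HasDerivAt.congr_deriv (f := fun s => DB p s g) h ?_
  have hs := (sinh_FB_pos hp hp1 l hg).ne'
  have hR := (RR_pos hp hp1 l hg).ne'
  have hq := RR_eq_B hp hp1 l hg
  unfold EB FBl
  field_simp
  rw [hq]
  ring

/-- `∂_g^2 F_A` -/
noncomputable def FAgg (p l g : ℝ) : ℝ :=
  (Real.cosh g * (Real.cosh g - rh l) + Real.sinh g ^ 2 - EA p l g * FAg p l g ^ 2) / DA p l g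
/-- `∂_g ∂_l F_A` -/
noncomputable def FAgl (p l g : ℝ) : ℝ :=
  (rh l * (Real.sinh (FA p l g) * FAg p l g - Real.sinh g) - EA p l g * FAg p l g * FAl p l g)
    / DA p l g
/-- `∂_l^2 F_A` -/
noncomputable def FAll (p l g : ℝ) : ℝ :=
  (rh l * (Real.cosh (FA p l g) - Real.cosh g) + 2 * rh l * Real.sinh (FA p l g) * FAl p l g
    - EA p l g * FAl p l g ^ 2) / DA p l g
/-- `∂_g^2 F_B` -/
noncomputable def FBgg (p l g : ℝ) : ℝ :=
  (Real.cosh g * (Real.cosh (FB p l g) - Real.cosh g + rh l) - Real.sinh g ^ 2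
    + 2 * Real.sinh g * Real.sinh (FB p l g) * FBg p l g - EB p l g * FBg p l g ^ 2) / DB p l g
/-- `∂_g ∂_l F_B` -/
noncomputable def FBgl (p l g : ℝ) : ℝ :=
  (Real.sinh g * (Real.sinh (FB p l g) * FBl p l g + rh l)
    - FBg p l g * (EB p l g * FBl p l g + rh l * Real.sinh (FB p l g))) / DB p l g
/-- `∂_l^2 F_B` -/
noncomputable def FBll (p l g : ℝ) : ℝ :=
  (- (rh l * (Real.cosh (FB p l g) - Real.cosh g)) - 2 * rh l * Real.sinh (FB p l g) * FBl p l g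
    - EB p l g * FBl p l g ^ 2) / DB p l g

theorem hasDerivAt_FAg_g {p : ℝ} (hp : 0 < p) (hp1 : p < 1) (l : ℝ) {g : ℝ} (hg : 0 < g) :
    HasDerivAt (fun t => FAg p l t) (FAgg p l g) g := by
  have hN := (Real.hasDerivAt_sinh g).mul ((Real.hasDerivAt_cosh g).sub_const (rh l))
  have h := hN.div (hasDerivAt_DA_g hp hp1 l hg) (DA_pos hp hp1 l hg).ne'
  refine HasDerivAt.congr_deriv (f := fun t => FAg p l t) h ?_
  have hD := (DA_pos hp hp1 l hg).ne'
  have hF : FAg p l g = Real.sinh g * (Real.cosh g - rh l) / DA p l g := rfl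
  unfold FAgg
  rw [hF]
  simp only [Pi.mul_apply]
  field_simp

theorem hasDerivAt_FAg_l {p : ℝ} (hp : 0 < p) (hp1 : p < 1) (l : ℝ) {g : ℝ} (hg : 0 < g) :
    HasDerivAt (fun s => FAg p s g) (FAgl p l g) l := by
  have hN := ((hasDerivAt_rh l).const_sub (Real.cosh g)).const_mul (Real.sinh g)
  have h := hN.div (hasDerivAt_DA_l hp hp1 l hg) (DA_pos hp hp1 l hg).ne'
  refine HasDerivAt.congr_deriv (f := fun s => FAg p s g) h ?_
  have hD := (DA_pos hp hp1 l hg).ne'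
  have hF : FAg p l g = Real.sinh g * (Real.cosh g - rh l) / DA p l g := rfl
  unfold FAgl
  rw [hF]
  field_simp
  ring

theorem hasDerivAt_FAl_g {p : ℝ} (hp : 0 < p) (hp1 : p < 1) (l : ℝ) {g : ℝ} (hg : 0 < g) :
    HasDerivAt (fun t => FAl p l t) (FAgl p l g) g := by
  have hN := (((hasDerivAt_FA_g hp hp1 l hg).cosh).sub (Real.hasDerivAt_cosh g)).const_mul (rh l)
  have h := hN.div (hasDerivAt_DA_g hp hp1 l hg) (DA_pos hp hp1 l hg).ne'
  refine HasDerivAt.congr_deriv (f := fun t => FAl p l t) h ?_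
  have hD := (DA_pos hp hp1 l hg).ne'
  have hF : FAl p l g = rh l * (Real.cosh (FA p l g) - Real.cosh g) / DA p l g := rfl
  unfold FAgl
  rw [hF]
  simp only [Pi.sub_apply]
  field_simp

theorem hasDerivAt_FAl_l {p : ℝ} (hp : 0 < p) (hp1 : p < 1) (l : ℝ) {g : ℝ} (hg : 0 < g) :
    HasDerivAt (fun s => FAl p s g) (FAll p l g) l := by
  have hN := (hasDerivAt_rh l).mul (((hasDerivAt_FA_l hp hp1 l hg).cosh).sub_const (Real.cosh g))
  have h := hN.div (hasDerivAt_DA_l hp hp1 l hg) (DA_pos hp hp1 l hg).ne'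
  refine HasDerivAt.congr_deriv (f := fun s => FAl p s g) h ?_
  have hD := (DA_pos hp hp1 l hg).ne'
  have hF : FAl p l g = rh l * (Real.cosh (FA p l g) - Real.cosh g) / DA p l g := rfl
  unfold FAll
  rw [hF]
  simp only [Pi.mul_apply]
  field_simp
  ring

theorem hasDerivAt_FBg_g {p : ℝ} (hp : 0 < p) (hp1 : p < 1) (l : ℝ) {g : ℝ} (hg : 0 < g) :
    HasDerivAt (fun t => FBg p l t) (FBgg p l g) g := by
  have hN := (Real.hasDerivAt_sinh g).mul
    ((((hasDerivAt_FB_g hp hp1 l hg).cosh).sub (Real.hasDerivAt_cosh g)).add_const (rh l))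
  have h := hN.div (hasDerivAt_DB_g hp hp1 l hg) (DB_pos hp hp1 l hg).ne'
  refine HasDerivAt.congr_deriv (f := fun t => FBg p l t) h ?_
  have hD := (DB_pos hp hp1 l hg).ne'
  have hF : FBg p l g = Real.sinh g * (Real.cosh (FB p l g) - Real.cosh g + rh l) / DB p l g := rfl
  unfold FBgg
  rw [hF]
  simp only [Pi.mul_apply, Pi.sub_apply]
  field_simp
  ring

theorem hasDerivAt_FBg_l {p : ℝ} (hp : 0 < p) (hp1 : p < 1) (l : ℝ) {g : ℝ} (hg : 0 < g) :
    HasDerivAt (fun s => FBg p s g) (FBgl p l g) l := by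
  have hN := ((((hasDerivAt_FB_l hp hp1 l hg).cosh).sub_const (Real.cosh g)).add
    (hasDerivAt_rh l)).const_mul (Real.sinh g)
  have h := hN.div (hasDerivAt_DB_l hp hp1 l hg) (DB_pos hp hp1 l hg).ne'
  refine HasDerivAt.congr_deriv (f := fun s => FBg p s g) h ?_
  have hD := (DB_pos hp hp1 l hg).ne'
  have hF : FBg p l g = Real.sinh g * (Real.cosh (FB p l g) - Real.cosh g + rh l) / DB p l g := rfl
  unfold FBgl
  rw [hF]
  simp only [Pi.add_apply]
  field_simp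

theorem hasDerivAt_FBl_g {p : ℝ} (hp : 0 < p) (hp1 : p < 1) (l : ℝ) {g : ℝ} (hg : 0 < g) :
    HasDerivAt (fun t => FBl p l t) (FBgl p l g) g := by
  have hN := ((((hasDerivAt_FB_g hp hp1 l hg).cosh).sub
    (Real.hasDerivAt_cosh g)).const_mul (rh l)).neg
  have h := hN.div (hasDerivAt_DB_g hp hp1 l hg) (DB_pos hp hp1 l hg).ne'
  refine HasDerivAt.congr_deriv (f := fun t => FBl p l t) h ?_
  have hD := (DB_pos hp hp1 l hg).ne'
  have hF : FBl p l g = -(rh l * (Real.cosh (FB p l g) - Real.cosh g)) / DB p l g := rfl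
  unfold FBgl
  rw [hF]
  simp only [Pi.neg_apply, Pi.sub_apply]
  field_simp
  ring

theorem hasDerivAt_FBl_l {p : ℝ} (hp : 0 < p) (hp1 : p < 1) (l : ℝ) {g : ℝ} (hg : 0 < g) :
    HasDerivAt (fun s => FBl p s g) (FBll p l g) l := by
  have hN := ((hasDerivAt_rh l).mul (((hasDerivAt_FB_l hp hp1 l hg).cosh).sub_const
    (Real.cosh g))).neg
  have h := hN.div (hasDerivAt_DB_l hp hp1 l hg) (DB_pos hp hp1 l hg).ne'
  refine HasDerivAt.congr_deriv (f := fun s => FBl p s g) h ?_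
  have hD := (DB_pos hp hp1 l hg).ne'
  have hF : FBl p l g = -(rh l * (Real.cosh (FB p l g) - Real.cosh g)) / DB p l g := rfl
  unfold FBll
  rw [hF]
  simp only [Pi.neg_apply, Pi.mul_apply]
  field_simp
  ring

/-- algebraic core of the PDE for `F_A` -/
lemma alg_A {C S X Y R D E rho p Fg Fl Fll Fgl Fgg : ℝ} (hD : D ≠ 0)
    (hR : R = p * X - rho) (hDD : D = R * Y) (hE : E = p * Y ^ 2 + R * X)
    (h1 : p * Y ^ 2 - S ^ 2 = 2 * rho * (X - C)) (h2 : X ^ 2 = Y ^ 2 + 1) (h3 : C ^ 2 = S ^ 2 + 1)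
    (e1 : D * Fl = rho * (X - C)) (e2 : D * Fg = S * (C - rho))
    (hll : D * Fll = rho * (X - C) + 2 * rho * Y * Fl - E * Fl ^ 2)
    (hgl : D * Fgl = rho * (Y * Fg - S) - E * Fg * Fl)
    (hgg : D * Fgg = C * (C - rho) + S ^ 2 - E * Fg ^ 2) :
    (C - rho) * Fll + S * Fgl + rho * Fgg = 0 := by
  have key : Y ^ 2 * R = rho * (X - C) ^ 2 + S ^ 2 * (X - rho) := by
    rw [hR]
    linear_combination X * h1 + rho * h2 - rho * h3
  have s1 : D * ((C - rho) * Fll + S * Fgl + rho * Fgg)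
      = rho * (C - rho) * X + rho * Y * (2 * (C - rho) * Fl + S * Fg)
        - E * ((C - rho) * Fl ^ 2 + S * Fg * Fl + rho * Fg ^ 2) := by
    linear_combination (C - rho) * hll + S * hgl + rho * hgg
  have s2 : D * (2 * (C - rho) * Fl + S * Fg) = (C - rho) * (p * Y ^ 2) := by
    linear_combination 2 * (C - rho) * e1 + S * e2 - (C - rho) * h1
  have s3 : D ^ 2 * ((C - rho) * Fl ^ 2 + S * Fg * Fl + rho * Fg ^ 2)
      = rho * (C - rho) * (Y ^ 2 * R) := by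
    rw [key]
    linear_combination (C - rho) * (D * Fl + rho * (X - C)) * e1
      + S * (D * Fl) * e2 + S * (S * (C - rho)) * e1
      + rho * (D * Fg + S * (C - rho)) * e2
  have s4 : D ^ 3 * ((C - rho) * Fll + S * Fgl + rho * Fgg) = 0 := by
    have : D ^ 3 * ((C - rho) * Fll + S * Fgl + rho * Fgg)
        = D ^ 2 * (rho * (C - rho) * X) + D * (rho * Y) * (D * (2 * (C - rho) * Fl + S * Fg))
          - E * (D ^ 2 * ((C - rho) * Fl ^ 2 + S * Fg * Fl + rho * Fg ^ 2)) := by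
      linear_combination D ^ 2 * s1
    rw [this, s2, s3, hDD, hE]
    ring
  exact (mul_eq_zero.1 s4).resolve_left (pow_ne_zero 3 hD)

/-- algebraic core of the PDE for `F_B` -/
lemma alg_B {C S X Y R D E rho q Fg Fl Fll Fgl Fgg : ℝ} (hD : D ≠ 0)
    (hR : R = q * X - (C - rho)) (hDD : D = R * Y) (hE : E = q * Y ^ 2 + R * X)
    (h1 : q * Y ^ 2 - S ^ 2 = 2 * (C - rho) * (X - C)) (h2 : X ^ 2 = Y ^ 2 + 1)
    (h3 : C ^ 2 = S ^ 2 + 1)
    (e1 : D * Fl = -(rho * (X - C))) (e2 : D * Fg = S * (X - C + rho))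
    (hll : D * Fll = -(rho * (X - C)) - 2 * rho * Y * Fl - E * Fl ^ 2)
    (hgl : D * Fgl = S * (Y * Fl + rho) - Fg * (E * Fl + rho * Y))
    (hgg : D * Fgg = C * (X - C + rho) - S ^ 2 + 2 * S * Y * Fg - E * Fg ^ 2) :
    (C - rho) * Fll + S * Fgl + rho * Fgg = 0 := by
  have key : Y ^ 2 * R = (C - rho) * (X - C) ^ 2 + S ^ 2 * (X - C + rho) := by
    rw [hR]
    linear_combination X * h1 + (C - rho) * h2 - (C - rho) * h3
  have s1 : D * ((C - rho) * Fll + S * Fgl + rho * Fgg)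
      = rho ^ 2 * X + Y * (-2 * rho * (C - rho) * Fl - rho * S * Fg + S ^ 2 * Fl
          + 2 * rho * S * Fg)
        - E * ((C - rho) * Fl ^ 2 + S * Fg * Fl + rho * Fg ^ 2) := by
    linear_combination (C - rho) * hll + S * hgl + rho * hgg
  have s2 : D * (-2 * rho * (C - rho) * Fl - rho * S * Fg + S ^ 2 * Fl
          + 2 * rho * S * Fg) = rho ^ 2 * (q * Y ^ 2) := by
    linear_combination (-2 * rho * (C - rho) + S ^ 2) * e1 + rho * S * e2 - rho ^ 2 * h1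
  have s3 : D ^ 2 * ((C - rho) * Fl ^ 2 + S * Fg * Fl + rho * Fg ^ 2)
      = rho ^ 2 * (Y ^ 2 * R) := by
    rw [key]
    linear_combination (C - rho) * (D * Fl - rho * (X - C)) * e1
      + S * (D * Fl) * e2 + S * (S * (X - C + rho)) * e1
      + rho * (D * Fg + S * (X - C + rho)) * e2
  have s4 : D ^ 3 * ((C - rho) * Fll + S * Fgl + rho * Fgg) = 0 := by
    have : D ^ 3 * ((C - rho) * Fll + S * Fgl + rho * Fgg)
        = D ^ 2 * (rho ^ 2 * X) + D * Y * (D * (-2 * rho * (C - rho) * Fl - rho * S * Fg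
          + S ^ 2 * Fl + 2 * rho * S * Fg))
          - E * (D ^ 2 * ((C - rho) * Fl ^ 2 + S * Fg * Fl + rho * Fg ^ 2)) := by
      linear_combination D ^ 2 * s1
    rw [this, s2, s3, hDD, hE]
    ring
  exact (mul_eq_zero.1 s4).resolve_left (pow_ne_zero 3 hD)

/-- the PDE `(C - rho) F_ll + S F_gl + rho F_gg = 0` for `F_A` -/
theorem pde_A {p : ℝ} (hp : 0 < p) (hp1 : p < 1) (l : ℝ) {g : ℝ} (hg : 0 < g) :
    (Real.cosh g - rh l) * FAll p l g + Real.sinh g * FAgl p l g + rh l * FAgg p l g = 0 := by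
  have hD := (DA_pos hp hp1 l hg).ne'
  refine alg_A hD (RR_eq_A hp hp1 l hg) rfl rfl (rel_A hp hp1 l hg) (Real.cosh_sq (FA p l g))
    (Real.cosh_sq g) (Fg := FAg p l g) (Fl := FAl p l g) ?_ ?_ ?_ ?_ ?_
  · unfold FAl; exact mul_div_cancel₀ _ hD
  · unfold FAg; exact mul_div_cancel₀ _ hD
  · unfold FAll; exact mul_div_cancel₀ _ hD
  · unfold FAgl; exact mul_div_cancel₀ _ hD
  · unfold FAgg; exact mul_div_cancel₀ _ hD

/-- the PDE `(C - rho) F_ll + S F_gl + rho F_gg = 0` for `F_B` -/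
theorem pde_B {p : ℝ} (hp : 0 < p) (hp1 : p < 1) (l : ℝ) {g : ℝ} (hg : 0 < g) :
    (Real.cosh g - rh l) * FBll p l g + Real.sinh g * FBgl p l g + rh l * FBgg p l g = 0 := by
  have hD := (DB_pos hp hp1 l hg).ne'
  refine alg_B hD (RR_eq_B hp hp1 l hg) rfl rfl (rel_B hp hp1 l hg) (Real.cosh_sq (FB p l g))
    (Real.cosh_sq g) (Fg := FBg p l g) (Fl := FBl p l g) ?_ ?_ ?_ ?_ ?_
  · unfold FBl; exact mul_div_cancel₀ _ hD
  · unfold FBg; exact mul_div_cancel₀ _ hD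
  · unfold FBll; exact mul_div_cancel₀ _ hD
  · unfold FBgl; exact mul_div_cancel₀ _ hD
  · unfold FBgg; exact mul_div_cancel₀ _ hD

/-- the PDE implies `det Hess ≤ 0` in the range -/
lemma det_of_pde {C S rho Fll Fgl Fgg : ℝ} (hC : 0 < C - rho) (h3 : C ^ 2 = S ^ 2 + 1)
    (hr : |C - 2 * rho| ≤ 1) (hp : (C - rho) * Fll + S * Fgl + rho * Fgg = 0) :
    0 ≤ Fgl ^ 2 - Fll * Fgg := by
  have h1 : (C - 2 * rho) ^ 2 ≤ 1 := by
    have := abs_le.1 hr
    nlinarith [this.1, this.2]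
  have h2 : 0 ≤ 4 * (C - rho) ^ 2 * (Fgl ^ 2 - Fll * Fgg) := by
    have : 4 * (C - rho) ^ 2 * (Fgl ^ 2 - Fll * Fgg)
        = (2 * (C - rho) * Fgl + S * Fgg) ^ 2 + (1 - (C - 2 * rho) ^ 2) * Fgg ^ 2 := by
      linear_combination (-4 * (C - rho) * Fgg) * hp + Fgg ^ 2 * h3
    rw [this]
    have : 0 ≤ 1 - (C - 2 * rho) ^ 2 := by linarith
    positivity
  have h4 : 0 < 4 * (C - rho) ^ 2 := by positivity
  exact nonneg_of_mul_nonneg_right h2 h4

lemma C_sub_rho_pos {rho C : ℝ} (hC : 1 < C) (hr : |C - 2 * rho| ≤ 1) : 0 < C - rho := by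
  have := abs_le.1 hr
  linarith [this.1, this.2]

theorem det_A {p : ℝ} (hp : 0 < p) (hp1 : p < 1) {l g : ℝ} (hg : 0 < g)
    (hr : |Real.cosh g - 2 * rh l| ≤ 1) :
    0 ≤ FAgl p l g ^ 2 - FAll p l g * FAgg p l g :=
  det_of_pde (C_sub_rho_pos (Real.one_lt_cosh.2 hg.ne') hr) (Real.cosh_sq g) hr
    (pde_A hp hp1 l hg)

theorem det_B {p : ℝ} (hp : 0 < p) (hp1 : p < 1) {l g : ℝ} (hg : 0 < g)
    (hr : |Real.cosh g - 2 * rh l| ≤ 1) :
    0 ≤ FBgl p l g ^ 2 - FBll p l g * FBgg p l g :=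
  det_of_pde (C_sub_rho_pos (Real.one_lt_cosh.2 hg.ne') hr) (Real.cosh_sq g) hr
    (pde_B hp hp1 l hg)

end Pool.EH
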