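import Pool.Agent.H10.EH.FC

/-!
# Smoothness of `F_A`, `F_B` and their closed-form derivatives on `{g > 0}`
-/

namespace Pool.EH
open Real

variable {p : ℝ} {n : WithTop ℕ∞}

lemma contDiff_rh : ContDiff ℝ n (fun x : ℝ × ℝ => rh x.1) := by
  unfold rh
  fun_prop

lemma contDiffAt_RR (hp : 0 < p) (hp1 : p < 1) {x : ℝ × ℝ} (hg : 0 < x.2) :
    ContDiffAt ℝ n (fun y : ℝ × ℝ => RR p y.1 y.2) x := by
  unfold RR
  refine ContDiffAt.sqrt ?_ (RR_arg_pos hp hp1 x.1 hg).ne'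
  have h1 : ContDiffAt ℝ n (fun y : ℝ × ℝ => rh y.1) x := contDiff_rh.contDiffAt
  have h2 : ContDiffAt ℝ n (fun y : ℝ × ℝ => Real.cosh y.2) x := by fun_prop
  have h3 : ContDiffAt ℝ n (fun y : ℝ × ℝ => Real.sinh y.2) x := by fun_prop
  exact ((h1.sub (contDiffAt_const.mul h2)).pow 2).add (contDiffAt_const.mul (h3.pow 2))

lemma contDiffAt_FA (hp : 0 < p) (hp1 : p < 1) {x : ℝ × ℝ} (hg : 0 < x.2) :
    ContDiffAt ℝ n (fun y : ℝ × ℝ => FA p y.1 y.2) x := by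
  unfold FA
  have h1 : ContDiffAt ℝ n (fun y : ℝ × ℝ => rh y.1) x := contDiff_rh.contDiffAt
  have h2 : ContDiffAt ℝ n (fun y : ℝ × ℝ => (rh y.1 + RR p y.1 y.2) / p) x :=
    (h1.add (contDiffAt_RR hp hp1 hg)).div_const p
  exact ContDiffAt.comp (g := Real.arcosh) x (Real.contDiffAt_arcosh (one_lt_A hp hp1 x.1 hg)) h2

lemma contDiffAt_FB (hp : 0 < p) (hp1 : p < 1) {x : ℝ × ℝ} (hg : 0 < x.2) :
    ContDiffAt ℝ n (fun y : ℝ × ℝ => FB p y.1 y.2) x := by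
  unfold FB
  have h1 : ContDiffAt ℝ n (fun y : ℝ × ℝ => rh y.1) x := contDiff_rh.contDiffAt
  have h3 : ContDiffAt ℝ n (fun y : ℝ × ℝ => Real.cosh y.2) x := by fun_prop
  have h2 : ContDiffAt ℝ n
      (fun y : ℝ × ℝ => (RR p y.1 y.2 + Real.cosh y.2 - rh y.1) / (1 - p)) x :=
    (((contDiffAt_RR hp hp1 hg).add h3).sub h1).div_const (1 - p)
  exact ContDiffAt.comp (g := Real.arcosh) x (Real.contDiffAt_arcosh (one_lt_B hp hp1 x.1 hg)) h2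

lemma contDiffAt_shFA (hp : 0 < p) (hp1 : p < 1) {x : ℝ × ℝ} (hg : 0 < x.2) :
    ContDiffAt ℝ n (fun y : ℝ × ℝ => Real.sinh (FA p y.1 y.2)) x := (contDiffAt_FA hp hp1 hg).sinh
lemma contDiffAt_chFA (hp : 0 < p) (hp1 : p < 1) {x : ℝ × ℝ} (hg : 0 < x.2) :
    ContDiffAt ℝ n (fun y : ℝ × ℝ => Real.cosh (FA p y.1 y.2)) x := (contDiffAt_FA hp hp1 hg).cosh
lemma contDiffAt_shFB (hp : 0 < p) (hp1 : p < 1) {x : ℝ × ℝ} (hg : 0 < x.2) :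
    ContDiffAt ℝ n (fun y : ℝ × ℝ => Real.sinh (FB p y.1 y.2)) x := (contDiffAt_FB hp hp1 hg).sinh
lemma contDiffAt_chFB (hp : 0 < p) (hp1 : p < 1) {x : ℝ × ℝ} (hg : 0 < x.2) :
    ContDiffAt ℝ n (fun y : ℝ × ℝ => Real.cosh (FB p y.1 y.2)) x := (contDiffAt_FB hp hp1 hg).cosh

lemma contDiffAt_ch (x : ℝ × ℝ) : ContDiffAt ℝ n (fun y : ℝ × ℝ => Real.cosh y.2) x := by fun_prop
lemma contDiffAt_sh (x : ℝ × ℝ) : ContDiffAt ℝ n (fun y : ℝ × ℝ => Real.sinh y.2) x := by fun_prop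
lemma contDiffAt_rh (x : ℝ × ℝ) : ContDiffAt ℝ n (fun y : ℝ × ℝ => rh y.1) x :=
  contDiff_rh.contDiffAt

lemma contDiffAt_DA (hp : 0 < p) (hp1 : p < 1) {x : ℝ × ℝ} (hg : 0 < x.2) :
    ContDiffAt ℝ n (fun y : ℝ × ℝ => DA p y.1 y.2) x :=
  (contDiffAt_RR hp hp1 hg).mul (contDiffAt_shFA hp hp1 hg)
lemma contDiffAt_DB (hp : 0 < p) (hp1 : p < 1) {x : ℝ × ℝ} (hg : 0 < x.2) :
    ContDiffAt ℝ n (fun y : ℝ × ℝ => DB p y.1 y.2) x :=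
  (contDiffAt_RR hp hp1 hg).mul (contDiffAt_shFB hp hp1 hg)
lemma contDiffAt_EA (hp : 0 < p) (hp1 : p < 1) {x : ℝ × ℝ} (hg : 0 < x.2) :
    ContDiffAt ℝ n (fun y : ℝ × ℝ => EA p y.1 y.2) x :=
  (contDiffAt_const.mul ((contDiffAt_shFA hp hp1 hg).pow 2)).add
    ((contDiffAt_RR hp hp1 hg).mul (contDiffAt_chFA hp hp1 hg))
lemma contDiffAt_EB (hp : 0 < p) (hp1 : p < 1) {x : ℝ × ℝ} (hg : 0 < x.2) :
    ContDiffAt ℝ n (fun y : ℝ × ℝ => EB p y.1 y.2) x :=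
  (contDiffAt_const.mul ((contDiffAt_shFB hp hp1 hg).pow 2)).add
    ((contDiffAt_RR hp hp1 hg).mul (contDiffAt_chFB hp hp1 hg))

lemma contDiffAt_FAg (hp : 0 < p) (hp1 : p < 1) {x : ℝ × ℝ} (hg : 0 < x.2) :
    ContDiffAt ℝ n (fun y : ℝ × ℝ => FAg p y.1 y.2) x :=
  ((contDiffAt_sh x).mul ((contDiffAt_ch x).sub (contDiffAt_rh x))).div
    (contDiffAt_DA hp hp1 hg) (DA_pos hp hp1 x.1 hg).ne'
lemma contDiffAt_FAl (hp : 0 < p) (hp1 : p < 1) {x : ℝ × ℝ} (hg : 0 < x.2) :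
    ContDiffAt ℝ n (fun y : ℝ × ℝ => FAl p y.1 y.2) x :=
  ((contDiffAt_rh x).mul ((contDiffAt_chFA hp hp1 hg).sub (contDiffAt_ch x))).div
    (contDiffAt_DA hp hp1 hg) (DA_pos hp hp1 x.1 hg).ne'
lemma contDiffAt_FBg (hp : 0 < p) (hp1 : p < 1) {x : ℝ × ℝ} (hg : 0 < x.2) :
    ContDiffAt ℝ n (fun y : ℝ × ℝ => FBg p y.1 y.2) x :=
  ((contDiffAt_sh x).mul (((contDiffAt_chFB hp hp1 hg).sub (contDiffAt_ch x)).add
    (contDiffAt_rh x))).div (contDiffAt_DB hp hp1 hg) (DB_pos hp hp1 x.1 hg).ne'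
lemma contDiffAt_FBl (hp : 0 < p) (hp1 : p < 1) {x : ℝ × ℝ} (hg : 0 < x.2) :
    ContDiffAt ℝ n (fun y : ℝ × ℝ => FBl p y.1 y.2) x :=
  (((contDiffAt_rh x).mul ((contDiffAt_chFB hp hp1 hg).sub (contDiffAt_ch x))).neg).div
    (contDiffAt_DB hp hp1 hg) (DB_pos hp hp1 x.1 hg).ne'

lemma contDiffAt_FAgg (hp : 0 < p) (hp1 : p < 1) {x : ℝ × ℝ} (hg : 0 < x.2) :
    ContDiffAt ℝ n (fun y : ℝ × ℝ => FAgg p y.1 y.2) x :=
  ((((contDiffAt_ch x).mul ((contDiffAt_ch x).sub (contDiffAt_rh x))).add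
    ((contDiffAt_sh x).pow 2)).sub ((contDiffAt_EA hp hp1 hg).mul
      ((contDiffAt_FAg hp hp1 hg).pow 2))).div
    (contDiffAt_DA hp hp1 hg) (DA_pos hp hp1 x.1 hg).ne'
lemma contDiffAt_FAgl (hp : 0 < p) (hp1 : p < 1) {x : ℝ × ℝ} (hg : 0 < x.2) :
    ContDiffAt ℝ n (fun y : ℝ × ℝ => FAgl p y.1 y.2) x :=
  (((contDiffAt_rh x).mul (((contDiffAt_shFA hp hp1 hg).mul (contDiffAt_FAg hp hp1 hg)).sub
    (contDiffAt_sh x))).sub (((contDiffAt_EA hp hp1 hg).mul (contDiffAt_FAg hp hp1 hg)).mul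
      (contDiffAt_FAl hp hp1 hg))).div
    (contDiffAt_DA hp hp1 hg) (DA_pos hp hp1 x.1 hg).ne'
lemma contDiffAt_FAll (hp : 0 < p) (hp1 : p < 1) {x : ℝ × ℝ} (hg : 0 < x.2) :
    ContDiffAt ℝ n (fun y : ℝ × ℝ => FAll p y.1 y.2) x :=
  ((((contDiffAt_rh x).mul ((contDiffAt_chFA hp hp1 hg).sub (contDiffAt_ch x))).add
    (((contDiffAt_const.mul (contDiffAt_rh x)).mul (contDiffAt_shFA hp hp1 hg)).mul
      (contDiffAt_FAl hp hp1 hg))).sub ((contDiffAt_EA hp hp1 hg).mul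
      ((contDiffAt_FAl hp hp1 hg).pow 2))).div
    (contDiffAt_DA hp hp1 hg) (DA_pos hp hp1 x.1 hg).ne'
lemma contDiffAt_FBgg (hp : 0 < p) (hp1 : p < 1) {x : ℝ × ℝ} (hg : 0 < x.2) :
    ContDiffAt ℝ n (fun y : ℝ × ℝ => FBgg p y.1 y.2) x :=
  (((((contDiffAt_ch x).mul (((contDiffAt_chFB hp hp1 hg).sub (contDiffAt_ch x)).add
    (contDiffAt_rh x))).sub ((contDiffAt_sh x).pow 2)).add
    (((contDiffAt_const.mul (contDiffAt_sh x)).mul (contDiffAt_shFB hp hp1 hg)).mul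
      (contDiffAt_FBg hp hp1 hg))).sub ((contDiffAt_EB hp hp1 hg).mul
      ((contDiffAt_FBg hp hp1 hg).pow 2))).div
    (contDiffAt_DB hp hp1 hg) (DB_pos hp hp1 x.1 hg).ne'
lemma contDiffAt_FBgl (hp : 0 < p) (hp1 : p < 1) {x : ℝ × ℝ} (hg : 0 < x.2) :
    ContDiffAt ℝ n (fun y : ℝ × ℝ => FBgl p y.1 y.2) x :=
  (((contDiffAt_sh x).mul (((contDiffAt_shFB hp hp1 hg).mul (contDiffAt_FBl hp hp1 hg)).add
    (contDiffAt_rh x))).sub ((contDiffAt_FBg hp hp1 hg).mul (((contDiffAt_EB hp hp1 hg).mul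
      (contDiffAt_FBl hp hp1 hg)).add ((contDiffAt_rh x).mul (contDiffAt_shFB hp hp1 hg))))).div
    (contDiffAt_DB hp hp1 hg) (DB_pos hp hp1 x.1 hg).ne'
lemma contDiffAt_FBll (hp : 0 < p) (hp1 : p < 1) {x : ℝ × ℝ} (hg : 0 < x.2) :
    ContDiffAt ℝ n (fun y : ℝ × ℝ => FBll p y.1 y.2) x :=
  (((((contDiffAt_rh x).mul ((contDiffAt_chFB hp hp1 hg).sub (contDiffAt_ch x))).neg).sub
    (((contDiffAt_const.mul (contDiffAt_rh x)).mul (contDiffAt_shFB hp hp1 hg)).mul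
      (contDiffAt_FBl hp hp1 hg))).sub ((contDiffAt_EB hp hp1 hg).mul
      ((contDiffAt_FBl hp hp1 hg).pow 2))).div
    (contDiffAt_DB hp hp1 hg) (DB_pos hp hp1 x.1 hg).ne'

/-- bundled statement for `F_A` -/
theorem contDiffOn_FA (hp : 0 < p) (hp1 : p < 1) :
    ContDiffOn ℝ n (fun y : ℝ × ℝ => FA p y.1 y.2) {x | 0 < x.2} :=
  fun _ hx => (contDiffAt_FA hp hp1 hx).contDiffWithinAt
/-- bundled statement for `F_B` -/
theorem contDiffOn_FB (hp : 0 < p) (hp1 : p < 1) :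
    ContDiffOn ℝ n (fun y : ℝ × ℝ => FB p y.1 y.2) {x | 0 < x.2} :=
  fun _ hx => (contDiffAt_FB hp hp1 hx).contDiffWithinAt

/-- third derivatives -/
noncomputable def FAgll (p l g : ℝ) : ℝ := deriv (fun s => FAgl p s g) l
/-- third derivatives -/
noncomputable def FBgll (p l g : ℝ) : ℝ := deriv (fun s => FBgl p s g) l

/-- slice in the first variable -/
lemma hasDerivAt_slice {f : ℝ × ℝ → ℝ} {l g : ℝ} (h : ContDiffAt ℝ 1 f (l, g)) :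
    HasDerivAt (fun s => f (s, g)) (deriv (fun s => f (s, g)) l) l := by
  have h1 : DifferentiableAt ℝ f (l, g) := h.differentiableAt (by norm_num)
  have h2 : DifferentiableAt ℝ (fun s : ℝ => f (s, g)) l := by
    apply DifferentiableAt.comp (g := f) (f := fun s : ℝ => ((s, g) : ℝ × ℝ)) l h1
    fun_prop
  exact h2.hasDerivAt

theorem hasDerivAt_FAgl_l (hp : 0 < p) (hp1 : p < 1) (l : ℝ) {g : ℝ} (hg : 0 < g) :
    HasDerivAt (fun s => FAgl p s g) (FAgll p l g) l :=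
  hasDerivAt_slice (f := fun y : ℝ × ℝ => FAgl p y.1 y.2) (contDiffAt_FAgl (x := (l, g)) hp hp1 hg)

theorem hasDerivAt_FBgl_l (hp : 0 < p) (hp1 : p < 1) (l : ℝ) {g : ℝ} (hg : 0 < g) :
    HasDerivAt (fun s => FBgl p s g) (FBgll p l g) l :=
  hasDerivAt_slice (f := fun y : ℝ × ℝ => FBgl p y.1 y.2) (contDiffAt_FBgl (x := (l, g)) hp hp1 hg)

lemma slice_eq_fderiv {f : ℝ × ℝ → ℝ} {x : ℝ × ℝ} (h : ContDiffAt ℝ 1 f x) :
    deriv (fun s => f (s, x.2)) x.1 = fderiv ℝ f x (1, 0) := by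
  have h1 : HasFDerivAt f (fderiv ℝ f x) (x.1, x.2) :=
    (h.differentiableAt (by norm_num)).hasFDerivAt
  have h2 : HasDerivAt (fun s : ℝ => ((s, x.2) : ℝ × ℝ)) (1, 0) x.1 :=
    (hasDerivAt_id x.1).prodMk (hasDerivAt_const x.1 x.2)
  exact (h1.comp_hasDerivAt x.1 h2).deriv

lemma contDiffAt_slice {f : ℝ × ℝ → ℝ} {x : ℝ × ℝ}
    (h : ∀ y : ℝ × ℝ, 0 < y.2 → ContDiffAt ℝ (n + 1) f y) (hx : 0 < x.2) :
    ContDiffAt ℝ n (fun y : ℝ × ℝ => deriv (fun s => f (s, y.2)) y.1) x := by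
  have h1 : ContDiffAt ℝ n (fun y : ℝ × ℝ => fderiv ℝ f y (1, 0)) x :=
    ((h x hx).fderiv_right le_rfl).clm_apply contDiffAt_const
  refine h1.congr_of_eventuallyEq ?_
  have h2 : {y : ℝ × ℝ | 0 < y.2} ∈ nhds x :=
    (isOpen_lt continuous_const continuous_snd).mem_nhds hx
  filter_upwards [h2] with y hy
  exact slice_eq_fderiv ((h y hy).of_le le_add_self)

lemma contDiffAt_FAgll (hp : 0 < p) (hp1 : p < 1) {x : ℝ × ℝ} (hg : 0 < x.2) :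
    ContDiffAt ℝ n (fun y : ℝ × ℝ => FAgll p y.1 y.2) x :=
  contDiffAt_slice (f := fun y : ℝ × ℝ => FAgl p y.1 y.2)
    (fun _ hy => contDiffAt_FAgl hp hp1 hy) hg

lemma contDiffAt_FBgll (hp : 0 < p) (hp1 : p < 1) {x : ℝ × ℝ} (hg : 0 < x.2) :
    ContDiffAt ℝ n (fun y : ℝ × ℝ => FBgll p y.1 y.2) x :=
  contDiffAt_slice (f := fun y : ℝ × ℝ => FBgl p y.1 y.2)
    (fun _ hy => contDiffAt_FBgl hp hp1 hy) hg

end Pool.EH
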